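import Pool.Agent.H73.CTG.Stmts

/-!
Row LVP of the board `ctg` (MP_e1af46_an): the Levi form is nonnegative.
-/

set_option autoImplicit false

open Set Filter Topology

namespace Pool.CTG

theorem lvp_d2 {W : Type} [NormedAddCommGroup W] [NormedSpace ℝ W] {s : Set W} (hs : IsOpen s)
    (g : W → ℝ) (hg : ContDiffOn ℝ 2 g s) (w ζ : W) (hζ : ζ ∈ s) :
    DifferentiableAt ℝ (fun y => fderiv ℝ g y w) ζ := by
  have h1 : ContDiffOn ℝ 1 (fderiv ℝ g) s := hg.fderiv_of_isOpen hs (by norm_num)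
  have h2 : DifferentiableAt ℝ (fderiv ℝ g) ζ :=
    (h1.differentiableOn (by norm_num)).differentiableAt (hs.mem_nhds hζ)
  exact h2.clm_apply (differentiableAt_const w)

theorem lvp_sub {s : Set ℂ} (hs : IsOpen s) (g u : ℂ → ℝ) (hg : ContDiffOn ℝ 2 g s)
    (hu : ContDiffOn ℝ 2 u s) (a : ℝ) (w ζ : ℂ) (hζ : ζ ∈ s) :
    fderiv ℝ (fun y => fderiv ℝ (fun x => a * g x - u x) y w) ζ w =
      a * fderiv ℝ (fun y => fderiv ℝ g y w) ζ w - fderiv ℝ (fun y => fderiv ℝ u y w) ζ w := by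
  have hgd : ∀ y ∈ s, DifferentiableAt ℝ g y := fun y hy =>
    (hg.differentiableOn (by norm_num)).differentiableAt (hs.mem_nhds hy)
  have hud : ∀ y ∈ s, DifferentiableAt ℝ u y := fun y hy =>
    (hu.differentiableOn (by norm_num)).differentiableAt (hs.mem_nhds hy)
  have e1 : (fun y => fderiv ℝ (fun x => a * g x - u x) y w) =ᶠ[𝓝 ζ]
      (fun y => a * fderiv ℝ g y w - fderiv ℝ u y w) := by
    filter_upwards [hs.mem_nhds hζ] with y hy
    rw [fderiv_fun_sub ((hgd y hy).const_mul a) (hud y hy), fderiv_const_mul (hgd y hy)]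
    rfl
  rw [e1.fderiv_eq]
  have h1 := lvp_d2 hs g hg w ζ hζ
  have h2 := lvp_d2 hs u hu w ζ hζ
  rw [fderiv_fun_sub (h1.const_mul a) h2, fderiv_const_mul h1]
  rfl

theorem lvp_chain {n : ℕ} (G : E n → ℝ) (hG : ContDiffOn ℝ 2 G {z | z ≠ 0}) (z v : E n) (w ζ : ℂ)
    (hζ : z + ζ • v ≠ 0) :
    fderiv ℝ (fun y => fderiv ℝ (fun ζ : ℂ => G (z + ζ • v)) y w) ζ w =
      fderiv ℝ (fun y => fderiv ℝ G y (w • v)) (z + ζ • v) (w • v) := by
  have ho : IsOpen {z : E n | z ≠ 0} := isOpen_ne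
  obtain ⟨T, hT⟩ : ∃ T : ℂ →L[ℝ] E n, ∀ x, T x = x • v :=
    ⟨(ContinuousLinearMap.toSpanSingleton ℂ v).restrictScalars ℝ, fun x => by simp⟩
  have hA : ∀ y : ℂ, HasFDerivAt (fun ζ : ℂ => z + ζ • v) T y := by
    intro y
    have h := (T.hasFDerivAt (x := y)).const_add z
    have e : (fun ζ : ℂ => z + ζ • v) = fun x => z + T x := by
      funext x
      rw [hT]
    rw [e]
    exact h
  have hs : IsOpen {y : ℂ | z + y • v ≠ 0} := by
    have hc : Continuous (fun y : ℂ => z + y • v) := by fun_prop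
    exact ho.preimage hc
  have hd : ∀ y : ℂ, z + y • v ≠ 0 → fderiv ℝ (fun ζ : ℂ => G (z + ζ • v)) y w =
      fderiv ℝ G (z + y • v) (w • v) := by
    intro y hy
    have h1 : DifferentiableAt ℝ G (z + y • v) :=
      (hG.differentiableOn (by norm_num)).differentiableAt (ho.mem_nhds hy)
    have h2 := h1.hasFDerivAt.comp y (hA y)
    have h3 : fderiv ℝ (fun ζ : ℂ => G (z + ζ • v)) y = (fderiv ℝ G (z + y • v)).comp T :=
      h2.fderiv
    rw [h3, ContinuousLinearMap.comp_apply, hT]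
  have e1 : (fun y => fderiv ℝ (fun ζ : ℂ => G (z + ζ • v)) y w) =ᶠ[𝓝 ζ]
      (fun y => fderiv ℝ G (z + y • v) (w • v)) := by
    filter_upwards [hs.mem_nhds hζ] with y hy
    exact hd y hy
  rw [e1.fderiv_eq]
  have h1 := lvp_d2 ho G hG (w • v) (z + ζ • v) hζ
  have h2 := h1.hasFDerivAt.comp ζ (hA ζ)
  have h3 : fderiv ℝ (fun y : ℂ => fderiv ℝ G (z + y • v) (w • v)) ζ =
      (fderiv ℝ (fun y => fderiv ℝ G y (w • v)) (z + ζ • v)).comp T := h2.fderiv
  rw [h3, ContinuousLinearMap.comp_apply, hT]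

theorem lvp_u2 {n : ℕ} (G : E n → ℝ) (hG : ContDiffOn ℝ 2 G {z | z ≠ 0}) (z v : E n) (R : ℝ)
    (hR : ∀ ζ ∈ Metric.ball (0 : ℂ) R, z + ζ • v ≠ 0) :
    ContDiffOn ℝ 2 (fun ζ : ℂ => G (z + ζ • v)) (Metric.ball 0 R) := by
  have h : ContDiff ℝ 2 (fun ζ : ℂ => z + ζ • v) := by fun_prop
  exact hG.comp h.contDiffOn (fun ζ hζ => hR ζ hζ)

/-- an affine nonnegative sequence in both directions is constant -/
theorem lvp_aff {n : ℕ} (q : E n → ℝ) (h0 : ∀ v, 0 ≤ q v) (w : E n) (hw : q w = 0)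
    (hp : ∀ v, q (v + w) + q (v - w) = 2 * q v + 2 * q w) (v : E n) : q (v + w) = q v := by
  have hstep : ∀ (v : E n) (m : ℕ), q (v + (m : ℝ) • w) = q v + m * (q (v + w) - q v) ∧
      q (v + ((m : ℝ) + 1) • w) = q v + (m + 1) * (q (v + w) - q v) := by
    intro v m
    induction m with
    | zero => simp
    | succ m ih =>
      refine ⟨?_, ?_⟩
      · have := ih.2
        push_cast
        exact this
      · have h1 := hp (v + ((m : ℝ) + 1) • w)
        have e1 : v + ((m : ℝ) + 1) • w + w = v + (((m + 1 : ℕ) : ℝ) + 1) • w := by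
          push_cast
          module
        have e2 : v + ((m : ℝ) + 1) • w - w = v + (m : ℝ) • w := by module
        rw [e1, e2, hw, ih.1, ih.2] at h1
        push_cast at h1 ⊢
        linarith
  have hm : ∀ (v : E n) (m : ℕ), 0 ≤ q v + m * (q (v + w) - q v) := fun v m => by
    rw [← (hstep v m).1]
    exact h0 _
  -- the other direction
  have hm2 : ∀ m : ℕ, 0 ≤ q v - m * (q (v + w) - q v) := by
    intro m
    -- start from `v - m w`
    have h1 := (hstep (v - (m : ℝ) • w) m)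
    have e1 : v - (m : ℝ) • w + (m : ℝ) • w = v := by module
    have e2 : v - (m : ℝ) • w + ((m : ℝ) + 1) • w = v + w := by module
    rw [e1, e2] at h1
    have h2 := h0 (v - (m : ℝ) • w)
    have h3 : q (v + w) - q v = q (v - (m : ℝ) • w + w) - q (v - (m : ℝ) • w) := by
      linarith [h1.1, h1.2]
    rw [h3]
    linarith [h1.1]
  by_contra hne
  obtain ⟨m, hm1⟩ := exists_nat_gt (q v / |q (v + w) - q v|)
  have hpos : 0 < |q (v + w) - q v| := abs_pos.2 (sub_ne_zero.2 hne)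
  rw [div_lt_iff₀ hpos] at hm1
  rcases abs_cases (q (v + w) - q v) with h | h
  · have := hm2 m
    rw [h.1] at hm1
    linarith
  · have := hm v m
    rw [h.1] at hm1
    linarith

theorem lvp_bd {n : ℕ} {f : E n → E n} {d : ℕ} {G : E n → ℝ} (hH : Hyp f d G) :
    ∃ C : ℝ, 0 < C ∧ ∀ y : E n, y ≠ 0 → |G y - Real.log (‖y‖ ^ 2)| ≤ C := by
  have hc : ContinuousOn G (Metric.sphere (0 : E n) 1) := by
    refine hH.g2.continuousOn.mono ?_
    intro y hy
    have : ‖y‖ = 1 := by simpa using hy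
    intro h
    rw [h, norm_zero] at this
    exact zero_ne_one this
  obtain ⟨C, hC⟩ := (isCompact_sphere (0 : E n) 1).exists_bound_of_continuousOn hc
  refine ⟨|C| + 1, by positivity, ?_⟩
  intro y hy
  have hn : 0 < ‖y‖ := norm_pos_iff.2 hy
  obtain ⟨e, he⟩ : ∃ e : E n, e = (((‖y‖ : ℝ) : ℂ)⁻¹) • y := ⟨_, rfl⟩
  have hnC : ((‖y‖ : ℝ) : ℂ) ≠ 0 := by exact_mod_cast hn.ne'
  have he1 : ‖e‖ = 1 := by
    rw [he, norm_smul, norm_inv, Complex.norm_real, Real.norm_eq_abs, abs_of_pos hn]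
    field_simp
  have he0 : e ≠ 0 := by
    intro h
    rw [h, norm_zero] at he1
    exact zero_ne_one he1
  have hy2 : y = ((‖y‖ : ℝ) : ℂ) • e := by
    rw [he, smul_smul, mul_inv_cancel₀ hnC, one_smul]
  have h1 := hH.gh ((‖y‖ : ℝ) : ℂ) e hnC he0
  rw [← hy2, Complex.norm_real, Real.norm_eq_abs, abs_of_pos hn] at h1
  have h2 := hC e (by simpa using he1)
  rw [Real.norm_eq_abs] at h2
  have h3 : G y - Real.log (‖y‖ ^ 2) = G e := by
    rw [h1, Real.log_pow]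
    push_cast
    ring
  rw [h3]
  have := le_abs_self C
  linarith

theorem lvp_it {n : ℕ} {f : E n → E n} {d : ℕ} {G : E n → ℝ} (hH : Hyp f d G) (k : ℕ) :
    ContDiff ℂ 2 (f^[k]) ∧ ∀ y : E n, y ≠ 0 → f^[k] y ≠ 0 ∧ G (f^[k] y) = (d : ℝ) ^ k * G y := by
  induction k with
  | zero => exact ⟨contDiff_id, fun y hy => ⟨hy, by simp⟩⟩
  | succ k ih =>
    refine ⟨?_, ?_⟩
    · rw [Function.iterate_succ']
      exact hH.cd.comp ih.1
    · intro y hy
      obtain ⟨h1, h2⟩ := ih.2 y hy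
      rw [Function.iterate_succ']
      refine ⟨hH.nz _ h1, ?_⟩
      show G (f (f^[k] y)) = _
      rw [hH.ge _ h1, h2, pow_succ]
      ring

theorem lvp_nn (h2 : PSHStmt) (h3 : MAXStmt) {n : ℕ} {f : E n → E n} {d : ℕ} {G : E n → ℝ}
    (hH : Hyp f d G)
    (hcont : ContinuousOn (fun p : E n × E n => L G p.1 p.2) {p | p.1 ≠ 0}) (z v : E n)
    (hz : z ≠ 0) : 0 ≤ L G z v := by
  by_contra hneg
  have hneg' : L G z v < 0 := not_le.1 hneg
  obtain ⟨c, hc⟩ : ∃ c : ℝ, c = -(L G z v) / 2 := ⟨_, rfl⟩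
  have hc0 : 0 < c := by rw [hc]; linarith
  have ho : IsOpen {p : E n × E n | p.1 ≠ 0} := isOpen_ne.preimage continuous_fst
  have hca : ContinuousAt (fun ζ : ℂ => L G (z + ζ • v) v) 0 := by
    have h1 : ContinuousAt (fun p : E n × E n => L G p.1 p.2) (z + (0 : ℂ) • v, v) := by
      refine hcont.continuousAt (ho.mem_nhds ?_)
      show z + (0 : ℂ) • v ≠ 0
      simpa using hz
    have h2 : ContinuousAt (fun ζ : ℂ => ((z + ζ • v, v) : E n × E n)) 0 := by fun_prop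
    exact ContinuousAt.comp (g := fun p : E n × E n => L G p.1 p.2)
      (f := fun ζ : ℂ => ((z + ζ • v, v) : E n × E n)) (x := (0 : ℂ)) h1 h2
  have hev : ∀ᶠ ζ in 𝓝 (0 : ℂ), L G (z + ζ • v) v < -c ∧ z + ζ • v ≠ 0 := by
    refine Filter.Eventually.and ?_ ?_
    · refine hca.eventually (gt_mem_nhds ?_)
      show L G (z + (0 : ℂ) • v) v < -c
      rw [zero_smul, add_zero, hc]
      linarith
    · have hcc : Continuous (fun y : ℂ => z + y • v) := by fun_prop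
      have h : ∀ᶠ x in 𝓝 (z + (0 : ℂ) • v), x ≠ 0 := isOpen_ne.mem_nhds (by simpa using hz)
      exact hcc.continuousAt.eventually h
  obtain ⟨R, hR0, hR⟩ := Metric.eventually_nhds_iff_ball.1 hev
  obtain ⟨C, hC0, hC⟩ := lvp_bd hH
  have hnz : ∀ ζ ∈ Metric.ball (0 : ℂ) R, z + ζ • v ≠ 0 := fun ζ hζ => (hR ζ hζ).2
  have hu := lvp_u2 G hH.g2 z v R hnz
  have hd2 : (2 : ℝ) ≤ d := by exact_mod_cast hH.hd
  have key : ∀ k : ℕ, c / 8 * (R / 2) ^ 2 ≤ 2 * C / (d : ℝ) ^ k := by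
    intro k
    obtain ⟨hk1, hk2⟩ := lvp_it hH k
    have hdk : (0 : ℝ) < (d : ℝ) ^ k := by positivity
    have hF : DifferentiableOn ℂ (fun ζ : ℂ => f^[k] (z + ζ • v)) (Metric.ball 0 R) := by
      have h1 : Differentiable ℂ (f^[k]) := hk1.differentiable (by norm_num)
      have h2 : Differentiable ℂ (fun ζ : ℂ => z + ζ • v) := by fun_prop
      exact (h1.comp h2).differentiableOn
    obtain ⟨hg1, hg2⟩ := h2 n (fun ζ : ℂ => f^[k] (z + ζ • v)) 0 R hR0 hF
      (fun ζ hζ => (hk2 _ (hnz ζ hζ)).1)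
    have hb : ∀ ζ ∈ Metric.ball (0 : ℂ) R,
        |((d : ℝ) ^ k)⁻¹ * Real.log (‖f^[k] (z + ζ • v)‖ ^ 2) - G (z + ζ • v)| ≤
          C / (d : ℝ) ^ k := by
      intro ζ hζ
      obtain ⟨a1, a2⟩ := hk2 _ (hnz ζ hζ)
      have a3 := hC _ a1
      rw [a2] at a3
      have e : ((d : ℝ) ^ k)⁻¹ * Real.log (‖f^[k] (z + ζ • v)‖ ^ 2) - G (z + ζ • v) =
          -(((d : ℝ) ^ k * G (z + ζ • v) - Real.log (‖f^[k] (z + ζ • v)‖ ^ 2)) /
            (d : ℝ) ^ k) := by
        field_simp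
        ring
      rw [e, abs_neg, abs_div, abs_of_pos hdk]
      exact div_le_div_of_nonneg_right a3 hdk.le
    have hcd : ContDiffOn ℝ 2 (fun ζ : ℂ => ((d : ℝ) ^ k)⁻¹ *
        Real.log (‖f^[k] (z + ζ • v)‖ ^ 2) - G (z + ζ • v)) (Metric.ball 0 R) :=
      (contDiffOn_const.mul hg1).sub hu
    have hm := h3 (fun ζ : ℂ => ((d : ℝ) ^ k)⁻¹ *
        Real.log (‖f^[k] (z + ζ • v)‖ ^ 2) - G (z + ζ • v)) (R / 2) R c (C / (d : ℝ) ^ k)
      (by linarith) (by linarith) hc0 hcd ?_ ?_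
    · have h0 := (abs_le.1 (hb 0 (Metric.mem_ball_self hR0))).1
      have : 2 * C / (d : ℝ) ^ k = C / (d : ℝ) ^ k + C / (d : ℝ) ^ k := by ring
      rw [this]
      linarith
    · intro ζ hζ
      rw [lvp_sub Metric.isOpen_ball _ _ hg1 hu _ _ ζ hζ,
        lvp_sub Metric.isOpen_ball _ _ hg1 hu _ _ ζ hζ,
        lvp_chain G hH.g2 z v 1 ζ (hnz ζ hζ), lvp_chain G hH.g2 z v Complex.I ζ (hnz ζ hζ),
        one_smul]
      have b1 := hg2 ζ hζ
      have b2 := (hR ζ hζ).1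
      unfold L at b2
      have b3 := mul_nonneg (inv_nonneg.2 hdk.le) b1
      rw [mul_add] at b3
      linarith
    · intro ζ hζ
      refine (abs_le.1 (hb ζ ?_)).2
      rw [mem_ball_zero_iff, hζ]
      linarith
  -- contradiction for large k
  have hpos : 0 < c / 8 * (R / 2) ^ 2 := by positivity
  obtain ⟨k, hk⟩ := pow_unbounded_of_one_lt (2 * C / (c / 8 * (R / 2) ^ 2))
    (by linarith : (1 : ℝ) < d)
  have hdk : (0 : ℝ) < (d : ℝ) ^ k := by positivity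
  have h1 := key k
  rw [le_div_iff₀ hdk] at h1
  rw [div_lt_iff₀ hpos] at hk
  linarith

theorem LVP_thm (h1 : LVHStmt) (h2 : PSHStmt) (h3 : MAXStmt) : LVPStmt := by
  intro n f d G hH z v hz
  obtain ⟨-, hzz, hsm, hpar, hcont⟩ := h1 n f d G hH
  have hnn : ∀ v : E n, 0 ≤ L G z v := fun v => lvp_nn h2 h3 hH hcont z v hz
  refine ⟨hnn v, ?_⟩
  intro c
  refine lvp_aff (fun v => L G z v) hnn (c • z) ?_ ?_ v
  · show L G z (c • z) = 0
    rw [hsm c z z hz, (hzz z hz).1, mul_zero]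
  · intro w
    exact hpar z w (c • z) hz

end Pool.CTG
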